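import Pool.Agent.K3h88.VR.Stm2

set_option autoImplicit false

namespace Pool.Agent.K3h88.VR

open Finset Filter

/-- multiplicative pigeonhole -/
theorem pig3 (R : ℕ → ℕ → ℕ) (s r : ℕ) (hsr : s < r)
    (h : ∃ᶠ d : ℕ in atTop, 2 * R s d ≤ R r d) :
    ∃ (j : ℕ) (c : ℝ), s < j ∧ j ≤ r ∧ 0 < c ∧
      ∃ᶠ d : ℕ in atTop, (1 + c) * (R (j - 1) d : ℝ) ≤ R j d := by
  have hpos : (0 : ℝ) < (r : ℝ) - s := by
    have : (s : ℝ) < r := by exact_mod_cast hsr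
    linarith
  set θ : ℝ := (2 : ℝ) ^ ((1 : ℝ) / ((r : ℝ) - s)) with hθ
  have hθ1 : 1 < θ := Real.one_lt_rpow (by norm_num) (by positivity)
  by_contra hcon
  push Not at hcon
  have key : ∀ j, s < j → j ≤ r → ∀ᶠ d : ℕ in atTop, (R j d : ℝ) < θ * R (j - 1) d := by
    intro j h1 h2
    have h3 := hcon j (θ - 1) h1 h2 (by linarith)
    filter_upwards [h3] with d hd
    have e : (1 + (θ - 1)) = θ := by ring
    rwa [e] at hd
  have key2 : ∀ t : ℕ, s + t + 1 ≤ r → ∀ᶠ d : ℕ in atTop, (R (s + t + 1) d : ℝ) < θ ^ (t + 1) * R s d := by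
    intro t
    induction t with
    | zero =>
      intro ht
      have := key (s + 1) (by omega) (by omega)
      filter_upwards [this] with d hd
      simpa using hd
    | succ t ih =>
      intro ht
      have h1 := ih (by omega)
      have h2 := key (s + (t + 1) + 1) (by omega) ht
      filter_upwards [h1, h2] with d hd1 hd2
      have e : s + (t + 1) + 1 - 1 = s + t + 1 := by omega
      rw [e] at hd2
      calc (R (s + (t + 1) + 1) d : ℝ) < θ * R (s + t + 1) d := hd2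
        _ < θ * (θ ^ (t + 1) * R s d) := by
            apply mul_lt_mul_of_pos_left hd1 (by linarith)
        _ = θ ^ (t + 1 + 1) * R s d := by ring
  obtain ⟨t, ht⟩ : ∃ t, r = s + t + 1 := ⟨r - s - 1, by omega⟩
  have h5 := key2 t (by omega)
  have h6 : θ ^ (t + 1) = 2 := by
    rw [hθ, ← Real.rpow_natCast, ← Real.rpow_mul (by norm_num)]
    have : (1 : ℝ) / ((r : ℝ) - s) * ((t + 1 : ℕ) : ℝ) = 1 := by
      have e : ((t + 1 : ℕ) : ℝ) = (r : ℝ) - s := by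
        rw [ht]
        push_cast
        ring
      rw [e]
      field_simp
    rw [this, Real.rpow_one]
  rw [h6] at h5
  obtain ⟨d, hd1, hd2⟩ := (h.and_eventually h5).exists
  rw [← ht] at hd2
  have : (2 : ℝ) * R s d ≤ R r d := by exact_mod_cast hd1
  linarith

section

variable (hg : S_GOOD) (h2 : S_TWO) (hmon : S_MONR) (hmaps : S_MAPS) (hcol : S_COL) (hn2 : S_NUM2)

include hg h2 in
theorem lowTwo (r : ℕ) (ε : ℝ) (hr : 2 ≤ r) (hε : 0 < ε) :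
    ∃ D : ℕ, ∀ d n : ℕ, D ≤ d → Ramsey r n d → (2 - ε) * d ≤ n := by
  obtain ⟨D, hD⟩ := hg ε hε
  refine ⟨D, fun d n hd hR => ?_⟩
  by_contra hlt
  push Not at hlt
  exact h2 n d r hr (hD d n hd hlt.le) hR

include hg hmon hmaps hcol hn2 in
theorem lowLin' (k : ℕ) (ε : ℝ) (hk : 1 ≤ k) (hε : 0 < ε) (hε4 : ε < 1 / 4) :
    ∃ D : ℕ, ∀ d n : ℕ, D ≤ d → Ramsey (k + 1) n d → (1 + (k : ℝ) / 4 - ε) * d ≤ n := by
  obtain ⟨δ, hδ, hδ2⟩ := hn2 k ε hk hε hε4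
  obtain ⟨D', hD'⟩ := hg δ hδ
  obtain ⟨D, hD⟩ := hδ2 D'
  refine ⟨D, fun d N hd hR => ?_⟩
  obtain ⟨n, m, ρ, h1, h2, h3, h4, h5, h6, h7⟩ := hD d hd
  by_contra hlt
  push Not at hlt
  have hN : N ≤ n := by
    have : (N : ℝ) < n := lt_of_lt_of_le hlt h1
    exact_mod_cast this.le
  obtain ⟨B, hB1, hB2⟩ := hD' (ρ + 1) m h6 (by push_cast; exact h5)
  obtain ⟨Φ, hΦ⟩ := hmaps n m d ρ k h2 h3 h4 h7
  exact hmon (k + 1) n N d hN (hcol n m d ρ k Φ B hB1 hB2 hΦ) hR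

include hg h2 hmon hmaps hcol hn2 in
theorem lowMax (r : ℕ) (ε : ℝ) (hr : 2 ≤ r) (hε : 0 < ε) :
    ∃ D : ℕ, ∀ d n : ℕ, D ≤ d → Ramsey r n d → (max 2 (((r : ℝ) + 3) / 4) - ε) * d ≤ n := by
  obtain ⟨D1, hD1⟩ := lowTwo hg h2 r ε hr hε
  obtain ⟨D2, hD2⟩ := lowLin' hg hmon hmaps hcol hn2 (r - 1) (min ε (1 / 8)) (by omega)
    (by positivity) (lt_of_le_of_lt (min_le_right _ _) (by norm_num))
  refine ⟨max D1 D2, fun d n hd hR => ?_⟩
  have e1 := hD1 d n (le_trans (le_max_left _ _) hd) hR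
  have er : r - 1 + 1 = r := by omega
  have e2 := hD2 d n (le_trans (le_max_right _ _) hd) (by rw [er]; exact hR)
  have ec : (((r - 1 : ℕ) : ℝ)) = (r : ℝ) - 1 := by
    rw [Nat.cast_sub (by omega)]
    simp
  rw [ec] at e2
  have hd0 : (0 : ℝ) ≤ d := Nat.cast_nonneg d
  rcases le_total (2 : ℝ) (((r : ℝ) + 3) / 4) with h | h
  · rw [max_eq_right h]
    refine le_trans ?_ e2
    apply mul_le_mul_of_nonneg_right _ hd0
    have := min_le_left ε (1 / 8)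
    linarith
  · rw [max_eq_left h]
    exact e1

end

section

variable (hg : S_GOOD) (h2 : S_TWO) (hmon : S_MONR) (hmaps : S_MAPS) (hamp : S_AMPC)
  (hhalf : S_HALF) (hdoub : S_DOUB)

include hg h2 hmon hmaps hamp hhalf hdoub in
theorem doubling (R : ℕ → ℕ → ℕ)
    (hR : ∀ r d : ℕ, 2 ≤ r → 1 ≤ d → IsLeast {n : ℕ | Ramsey r n d} (R r d))
    (s a C : ℕ) (hs : 2 ≤ s) (hpoly : ∀ᶠ d : ℕ in atTop, R s d ≤ C * d ^ a) :
    ∃ᶠ d : ℕ in atTop, 2 * R s d ≤ R (40 * 2 ^ a * (s - 1) + 1) d := by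
  obtain ⟨D0, hD0⟩ := lowTwo hg h2 s (1 / 20) hs (by norm_num)
  have hlow : ∀ d, max D0 1 ≤ d → (39 / 20 : ℝ) * d ≤ R s d := by
    intro d hd
    have h1 : 1 ≤ d := le_trans (le_max_right _ _) hd
    have := hD0 d (R s d) (le_trans (le_max_left _ _) hd) (hR s d hs h1).1
    linarith
  have h1 : ∀ᶠ d : ℕ in atTop, 1 ≤ R s d := by
    filter_upwards [eventually_ge_atTop (max D0 1)] with d hd
    have h := hlow d hd
    have hd1 : (1 : ℝ) ≤ d := by exact_mod_cast le_trans (le_max_right D0 1) hd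
    have : (0 : ℝ) < R s d := by linarith
    exact_mod_cast this
  have h3 := hdoub (R s) a C hpoly h1
  refine (h3.and_eventually (eventually_ge_atTop (2 * max D0 1 + 60))).mono ?_
  rintro d ⟨hd, hbig⟩
  have hhalf1 : max D0 1 ≤ d / 2 := by omega
  have hh1 : 1 ≤ d / 2 := by omega
  have hh20 : 30 ≤ d / 2 := by omega
  have hl := hlow (d / 2) hhalf1
  obtain ⟨hmem, hleast⟩ := hR s (d / 2) hs hh1
  set f := R s (d / 2) with hf
  have hf1 : 1 ≤ f := by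
    have h20 : (30 : ℝ) ≤ ((d / 2 : ℕ) : ℝ) := by exact_mod_cast hh20
    have : (0 : ℝ) < f := by linarith
    exact_mod_cast this
  obtain ⟨m, hm⟩ : ∃ m, f = m + 1 := ⟨f - 1, by omega⟩
  have hnr : ¬ Ramsey s m (d / 2) := by
    intro hc
    have := hleast (show m ∈ {n : ℕ | Ramsey s n (d / 2)} from hc)
    omega
  have h19 : 19 * (d / 2) ≤ 10 * m := by
    have h20 : (30 : ℝ) ≤ ((d / 2 : ℕ) : ℝ) := by exact_mod_cast hh20
    have hfm : (f : ℝ) = m + 1 := by rw [hm]; push_cast; ring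
    have : (19 : ℝ) * ((d / 2 : ℕ) : ℝ) ≤ 10 * m := by
      rw [hfm] at hl
      linarith
    exact_mod_cast this
  have hk10 : 10 ≤ 40 * 2 ^ a := by
    have : 1 ≤ 2 ^ a := Nat.one_le_two_pow
    omega
  obtain ⟨q1, q2, q3, q4⟩ := hhalf (40 * 2 ^ a) d m hk10 (by omega) h19
  obtain ⟨Φ, hΦ⟩ := hmaps _ m d (d / 2 - 1) (40 * 2 ^ a) q1 q2 q3 q4
  have hno := hamp _ m d (d / 2 - 1) (40 * 2 ^ a) s Φ hs
    (by rw [Nat.sub_add_cancel hh1]; exact hnr) hΦ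
  set r := 40 * 2 ^ a * (s - 1) + 1 with hr
  have hr2 : 2 ≤ r := by
    have : 1 ≤ 40 * 2 ^ a * (s - 1) := by
      apply Nat.mul_pos (by omega) (by omega)
    omega
  obtain ⟨hmem', hleast'⟩ := hR r d hr2 (by omega)
  have hlt : 40 * 2 ^ a * m / 5 < R r d := by
    by_contra hc
    push Not at hc
    exact hmon r _ _ d hc hno hmem'
  have e5 : 40 * 2 ^ a * m / 5 = 8 * 2 ^ a * m := by
    rw [show 40 * 2 ^ a * m = (8 * 2 ^ a * m) * 5 by ring]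
    exact Nat.mul_div_cancel _ (by norm_num)
  rw [e5] at hlt
  have hm1 : 1 ≤ m := by omega
  have hfd : R s d ≤ 2 ^ (a + 1) * (m + 1) := by rw [← hm]; exact hd
  calc 2 * R s d ≤ 2 * (2 ^ (a + 1) * (m + 1)) := by omega
    _ = 4 * 2 ^ a * (m + 1) := by ring
    _ ≤ 4 * 2 ^ a * (2 * m) := by
        apply Nat.mul_le_mul_left
        omega
    _ = 8 * 2 ^ a * m := by ring
    _ ≤ R r d := hlt.le

include hg h2 hmon hmaps hamp hhalf hdoub in
theorem gap (R : ℕ → ℕ → ℕ)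
    (hR : ∀ r d : ℕ, 2 ≤ r → 1 ≤ d → IsLeast {n : ℕ | Ramsey r n d} (R r d))
    (s a C : ℕ) (hs : 2 ≤ s) (hpoly : ∀ᶠ d : ℕ in atTop, R s d ≤ C * d ^ a) :
    ∃ (j : ℕ) (c : ℝ), s < j ∧ j ≤ 40 * 2 ^ a * (s - 1) + 1 ∧ 0 < c ∧
      ∃ᶠ d : ℕ in atTop, c * d ≤ c * R (j - 1) d ∧
        c * R (j - 1) d ≤ (R j d : ℝ) - R (j - 1) d := by
  have hsr : s < 40 * 2 ^ a * (s - 1) + 1 := by
    have h1 : 1 ≤ 2 ^ a := Nat.one_le_two_pow
    have h2 : 40 * 1 ≤ 40 * 2 ^ a := Nat.mul_le_mul_left _ h1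
    have h3 : 40 * (s - 1) ≤ 40 * 2 ^ a * (s - 1) := Nat.mul_le_mul_right _ (by omega)
    omega
  obtain ⟨j, c, hj1, hj2, hc, hfr⟩ := pig3 R s _ hsr
    (doubling hg h2 hmon hmaps hamp hhalf hdoub R hR s a C hs hpoly)
  refine ⟨j, c, hj1, hj2, hc, ?_⟩
  obtain ⟨D0, hD0⟩ := lowTwo hg h2 (j - 1) 1 (by omega) (by norm_num)
  refine (hfr.and_eventually (eventually_ge_atTop (max D0 1))).mono ?_
  rintro d ⟨h1, h3⟩
  have h4 := hD0 d (R (j - 1) d) (le_trans (le_max_left _ _) h3)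
    (hR (j - 1) d (by omega) (le_trans (le_max_right _ _) h3)).1
  have h5 : (d : ℝ) ≤ R (j - 1) d := by linarith
  exact ⟨mul_le_mul_of_nonneg_left h5 hc.le, by linarith⟩

end

end Pool.Agent.K3h88.VR
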