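import Mathlib

/-! Project VR (MP_bc06f7_co): lower bounds for multicolour Ramsey numbers of subspaces of `F_2^n`.
Definitions and the statements of the bricks. -/

set_option autoImplicit false

namespace Pool.Agent.K3h88.VR

open Finset Filter

/-- `F_2^n` -/
abbrev E (n : ℕ) : Type := Fin n → ZMod 2

/-- `B` contains no triangle `{x, y, x + y}` (and, by `x = y`, it does not contain `0`). -/
def SumFree {n : ℕ} (B : Finset (E n)) : Prop := ∀ x ∈ B, ∀ y ∈ B, x + y ∉ B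

/-- `B` meets every subspace of dimension `d`. -/
def Meets {n : ℕ} (B : Finset (E n)) (d : ℕ) : Prop :=
  ∀ V : Submodule (ZMod 2) (E n), Module.finrank (ZMod 2) V = d → ∃ x ∈ V, x ∈ B

def Good (n d : ℕ) : Prop := ∃ B : Finset (E n), SumFree B ∧ Meets B d

/-- Every `r`-colouring of the nonzero vectors of `F_2^n` has a monochromatic subspace of dimension
`2` in one of the first `r - 1` colours or a monochromatic subspace of dimension `d` in the last. -/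
def Ramsey (r n d : ℕ) : Prop :=
  ∀ c : E n → Fin r,
    (∃ i : Fin r, (i : ℕ) + 1 < r ∧ ∃ V : Submodule (ZMod 2) (E n),
      Module.finrank (ZMod 2) V = 2 ∧ ∀ v ∈ V, v ≠ 0 → c v = i) ∨
    (∃ i : Fin r, (i : ℕ) + 1 = r ∧ ∃ V : Submodule (ZMod 2) (E n),
      Module.finrank (ZMod 2) V = d ∧ ∀ v ∈ V, v ≠ 0 → c v = i)

/-- the triangles `{x, y, x + y}` with a vertex in `V` -/
noncomputable def tri {n : ℕ} (V : Submodule (ZMod 2) (E n)) : Finset (Finset (E n)) := by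
  classical
  exact univ.filter (fun T => ∃ x ∈ V, ∃ y : E n, x ≠ 0 ∧ y ≠ 0 ∧ x ≠ y ∧ T = {x, y, x + y})

/-- the members of `S` are pairwise disjoint -/
def PD {X : Type} (S : Finset (Finset X)) : Prop := ∀ T ∈ S, ∀ T' ∈ S, T ≠ T' → Disjoint T T'

/-! bricks for the alteration argument -/

def S_TAIL : Prop := ∀ (X : Type) [Fintype X] [DecidableEq X] (W : Finset X) (q s : ℕ), 1 ≤ q →
  (Nat.card {f : X → Fin q // (W.filter (fun x => (f x : ℕ) = 0)).card ≤ s} : ℝ) ≤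
    2 ^ s * (1 - 1 / (2 * (q : ℝ))) ^ W.card * (q : ℝ) ^ (Fintype.card X)

def S_FAM : Prop := ∀ (X : Type) [Fintype X] [DecidableEq X] (𝒯 : Finset (Finset X)) (q k : ℕ),
  1 ≤ q → (∀ T ∈ 𝒯, T.card = 3) →
  (Nat.card {f : X → Fin q // ∃ S ⊆ 𝒯, S.card = k ∧ PD S ∧ ∀ T ∈ S, ∀ x ∈ T, (f x : ℕ) = 0} : ℝ) *
    (q : ℝ) ^ (3 * k) ≤ (𝒯.card.choose k : ℝ) * (q : ℝ) ^ (Fintype.card X)

def S_TRI : Prop := ∀ (n d : ℕ) (V : Submodule (ZMod 2) (E n)), Module.finrank (ZMod 2) V = d →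
  (tri V).card ≤ 2 ^ (d + n) ∧ ∀ T ∈ tri V, T.card = 3 ∧ (0 : E n) ∉ T

def S_ALT : Prop := ∀ (n d k : ℕ) (A : Finset (E n)), (0 : E n) ∉ A →
  (∀ V : Submodule (ZMod 2) (E n), Module.finrank (ZMod 2) V = d →
    (∀ D : Finset (E n), D.card ≤ 3 * k → ∃ x ∈ V, x ∈ A ∧ x ∉ D) ∧
    ¬ ∃ S ⊆ tri V, S.card = k + 1 ∧ PD S ∧ ∀ T ∈ S, T ⊆ A) → Good n d

def S_SUB : Prop := ∀ n d : ℕ,
  Nat.card {V : Submodule (ZMod 2) (E n) // Module.finrank (ZMod 2) V = d} ≤ 2 ^ (n + d * (n - d))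

def S_RAND : Prop := ∀ n d q k : ℕ, 1 ≤ q →
  (2 : ℝ) ^ (n + d * (n - d)) * (2 ^ (3 * k) * (1 - 1 / (2 * (q : ℝ))) ^ (2 ^ d - 1) +
    ((2 ^ (d + n)).choose (k + 1) : ℕ) / (q : ℝ) ^ (3 * (k + 1))) < 1 → Good n d

def S_NUM1 : Prop := ∀ t d : ℕ, 5 ≤ t → t + 4 ≤ d →
  (2 * t - 10) + d * ((2 * t - 10) - d) + 1 < 2 ^ (d - t - 2) →
  (2 : ℝ) ^ ((2 * t - 10) + d * ((2 * t - 10) - d)) *
    (2 ^ (3 * (2 ^ (d - t - 4) - 1)) * (1 - 1 / (2 * ((2 ^ t : ℕ) : ℝ))) ^ (2 ^ d - 1) +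
    ((2 ^ (d + (2 * t - 10))).choose ((2 ^ (d - t - 4) - 1) + 1) : ℕ) /
      ((2 ^ t : ℕ) : ℝ) ^ (3 * ((2 ^ (d - t - 4) - 1) + 1))) < 1

def S_MONO : Prop := ∀ n n' d : ℕ, n' ≤ n → Good n d → Good n' d

def S_GOOD : Prop := ∀ ε : ℝ, 0 < ε → ∃ D : ℕ, ∀ d n : ℕ, D ≤ d → (n : ℝ) ≤ (2 - ε) * d → Good n d

/-! bricks for the random maps -/

def S_HOM : Prop := ∀ (n m d : ℕ) (V : Submodule (ZMod 2) (E n)) (W : Submodule (ZMod 2) (E m)),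
  Module.finrank (ZMod 2) V = d →
  Nat.card {φ : E n →ₗ[ZMod 2] E m // V.map φ ≤ W} =
    2 ^ (Module.finrank (ZMod 2) W * d + m * (n - d))

def S_RANK : Prop := ∀ (n m d ρ : ℕ) (V : Submodule (ZMod 2) (E n)), ρ ≤ m → ρ ≤ d → d ≤ n →
  Module.finrank (ZMod 2) V = d →
  Nat.card {φ : E n →ₗ[ZMod 2] E m // Module.finrank (ZMod 2) (V.map φ) ≤ ρ} *
    2 ^ ((d - ρ) * (m - ρ)) ≤ 2 ^ (m * n + m)

def S_MAPS : Prop := ∀ n m d ρ k : ℕ, ρ ≤ m → ρ ≤ d → d ≤ n →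
  n + d * (n - d) + k * m < k * ((d - ρ) * (m - ρ)) →
  ∃ Φ : Fin k → (E n →ₗ[ZMod 2] E m), ∀ V : Submodule (ZMod 2) (E n),
    Module.finrank (ZMod 2) V = d → ∃ i, ρ < Module.finrank (ZMod 2) (V.map (Φ i))

def S_COL : Prop := ∀ (n m d ρ k : ℕ) (Φ : Fin k → (E n →ₗ[ZMod 2] E m)) (B : Finset (E m)),
  SumFree B → Meets B (ρ + 1) →
  (∀ V : Submodule (ZMod 2) (E n), Module.finrank (ZMod 2) V = d →
    ∃ i, ρ < Module.finrank (ZMod 2) (V.map (Φ i))) → ¬ Ramsey (k + 1) n d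

/-- `Good n d` implies that there is a colouring with any number `r ≥ 2` of colours -/
def S_TWO : Prop := ∀ n d r : ℕ, 2 ≤ r → Good n d → ¬ Ramsey r n d

def S_MONR : Prop := ∀ r n n' d : ℕ, n' ≤ n → ¬ Ramsey r n d → ¬ Ramsey r n' d

def S_NUM2 : Prop := ∀ (k : ℕ) (ε : ℝ), 1 ≤ k → 0 < ε → ε < 1 / 4 →
  ∃ δ : ℝ, 0 < δ ∧ ∀ D' : ℕ, ∃ D : ℕ, ∀ d : ℕ, D ≤ d → ∃ n m ρ : ℕ,
    (1 + (k : ℝ) / 4 - ε) * d ≤ n ∧ ρ ≤ m ∧ ρ ≤ d ∧ d ≤ n ∧ (m : ℝ) ≤ (2 - δ) * ((ρ : ℝ) + 1) ∧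
    D' ≤ ρ + 1 ∧ n + d * (n - d) + k * m < k * ((d - ρ) * (m - ρ))

/-- pigeonhole on the colours -/
def S_PIG : Prop := ∀ (R : ℕ → ℕ → ℕ) (s r : ℕ) (C c L : ℝ), s < r →
  (∃ᶠ d : ℕ in atTop, (R s d : ℝ) ≤ C * d) →
  (∀ ε : ℝ, 0 < ε → ∀ᶠ d : ℕ in atTop, (L - ε) * d ≤ (R r d : ℝ)) →
  C + ((r : ℝ) - s) * c < L →
  ∃ j, s < j ∧ j ≤ r ∧ ∃ᶠ d : ℕ in atTop, (R (j - 1) d : ℝ) + c * d ≤ R j d

end Pool.Agent.K3h88.VR
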