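import Pool.Agent.K3h88.VR.Stm

/-! Project VR, second group of bricks: amplification of colourings with several colours. -/

set_option autoImplicit false

namespace Pool.Agent.K3h88.VR

open Finset Filter

/-- `k` linear maps pull back an `s`-colouring: each map uses its own `s - 1` colours -/
def S_AMPC : Prop := ∀ (n m d ρ k s : ℕ) (Φ : Fin k → (E n →ₗ[ZMod 2] E m)), 2 ≤ s →
  ¬ Ramsey s m (ρ + 1) →
  (∀ V : Submodule (ZMod 2) (E n), Module.finrank (ZMod 2) V = d →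
    ∃ i, ρ < Module.finrank (ZMod 2) (V.map (Φ i))) → ¬ Ramsey (k * (s - 1) + 1) n d

def S_HALF : Prop := ∀ k d m : ℕ, 10 ≤ k → 40 ≤ d → 19 * (d / 2) ≤ 10 * m →
  d / 2 - 1 ≤ m ∧ d / 2 - 1 ≤ d ∧ d ≤ k * m / 5 ∧
  k * m / 5 + d * (k * m / 5 - d) + k * m < k * ((d - (d / 2 - 1)) * (m - (d / 2 - 1)))

def S_DOUB : Prop := ∀ (f : ℕ → ℕ) (a C : ℕ), (∀ᶠ d : ℕ in atTop, f d ≤ C * d ^ a) →
  (∀ᶠ d : ℕ in atTop, 1 ≤ f d) → ∃ᶠ d : ℕ in atTop, f d ≤ 2 ^ (a + 1) * f (d / 2)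

def S_PIG2 : Prop := ∀ (R : ℕ → ℕ → ℕ) (s r : ℕ), s < r →
  (∃ᶠ d : ℕ in atTop, 2 * R s d ≤ R r d) →
  ∃ j, s < j ∧ j ≤ r ∧
    ∃ᶠ d : ℕ in atTop, (R (j - 1) d : ℝ) + (R s d : ℝ) / ((r : ℝ) - s) ≤ R j d

end Pool.Agent.K3h88.VR
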